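import Pool.Agent.K3h20.FB.Final

/-!
# The Tate conjecture in étale homology for the singular varieties dominated by abelian varieties
in independent blocks

Over an algebraic closure of the field with `p` elements each abelian variety is isogenous to the
reduction of an abelian variety of CM type (Honda, Tate). So an abelian variety over the field with
`p ^ c` elements is modelled by `RedAV`: a finite product of CM types `(E i, Φ i)` with Weil numbers
`π i ∈ E i` that satisfy the formula of Shimura and Taniyama; its cohomology of degree `n`, with
coefficients in an algebraically closed field `Ω`, consists of the alternating `n`-forms on
`Ω ⊗ H_1`, on which the Frobenius endomorphism acts by `π`.

**Independent blocks.** Let `q = p ^ a`, and let `P i` be finitely many Weil polynomials (`IsWeilPoly`: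
monic, with integral coefficients, all complex roots have the absolute value `√q`), divided into blocks
(`b i` is the block of `P i`). They form independent blocks (`IsIndepBlocks`) if

* (`NoRel`) there are only trivial multiplicative relations between the roots of the polynomials of one
  block, `q` and roots of unity: if a product of roots is, up to a root of unity, a power of `q`, then
  the roots `z` and `q / z` have the same multiplicity in it, for every root `z` of the block that is
  not supersingular;
* (`Indep`) for `P i` and `P k` in different blocks there is no nonzero Galois equivariant map between
  the spaces of the odd rational functions on the roots of `P i` and of `P k` that are not supersingular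
  (odd: complex conjugation `z ↦ q / z` changes the sign). Such maps are invariant matrices `A z w`.

Let `𝒞` (`IsBlockAV`) be the class of the abelian varieties `Y` each of whose factors is supersingular
or, over an algebraic closure, isogenous to the simple abelian variety of a root of one of the `P i`, for
some family `P` that forms independent blocks. There are no assumptions on the slopes or on the
multiplicities of the factors.

**Criteria** (`BlockCriteria`). Let `π i` be Weil numbers for `q` in finitely many CM fields `E i`. Their
minimal polynomials form independent blocks if

* each block consists of one irreducible field (`IsIrrCM`: the space of the odd rational functions on
  the complex embeddings of the field has no proper nonzero subspace stable under the automorphisms of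
  `ℂ`), or (`IsTwoPowerBlock`) each `π i` in the block generates `E i`, the degrees of the fields are
  powers of two, their discriminants are independent modulo squares, and, for each `i`, the numbers
  `2 v (τ (π i)) - a` (`τ` runs through the embeddings of `E i` in an algebraic closure of `ℚ_p`) are
  odd multiples of one nonzero rational number (for instance `π i` is ordinary);
* (`AreApart`) for `i` and `k` in different blocks `E k` is flipped over `E i` (for all complex
  embeddings `φ` and `ψ` some automorphism of `ℂ` is the identity on `φ (E i)` and complex conjugation on
  `ψ (E k)`), or one of the two fields is irreducible and not contained in the Galois closure of the
  other one, or both are irreducible and their degrees are different.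

CM fields of degree `2 ℓ` (`ℓ` an odd prime number) without imaginary quadratic subfields, and CM fields
of degree `2 ^ n` (`n ≥ 1`) whose complex embeddings are permuted in one cycle by some automorphism of
`ℂ` (imaginary quadratic fields, quartic CM fields that are not biquadratic, cyclic fields), are
irreducible.

For example `𝒞` contains all products of powers of abelian varieties of the Weil numbers `π_1, ..., π_r`,
in irreducible CM fields any two of which have different degrees or different Galois closures. The
conditions concern only pairs of fields: `ℚ(√-1)`, `ℚ(√-2)`, `ℚ(√-3)` and `ℚ(√-6)` are admitted, each
of them is contained in the compositum of the other three.

`Homology Ω V` are data of motivic homology `M X i j = H_i^M(X, ℚ(j)) = CH_j(X, i - 2 j) ⊗ ℚ` and of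
`ℓ`-adic homology `E X i j = H_i(X, ℚ_ℓ(j))` (coefficients extended to `Ω`) of schemes `X` of finite
type over a finite field (the elements of `V`), with the Frobenius and the regulator. Let `𝒢` be the
smallest class (`Generated`) of such schemes that contains those with the homology groups of abelian
varieties in `𝒞` (`IsBlockAbelian`), that is closed under direct summands of finite sums of twists of
motives, and that contains all of a closed subscheme `Z` of `X`, `X` and `X ∖ Z` if it contains two of
them. It contains for instance the products of curves and of open subsets of curves if the product of
their Jacobians is in `𝒞`, symmetric powers of them, and the singular and the open varieties with a
stratification by such varieties.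

Let `𝒮` be the smallest class (`Spread`) of such schemes that contains `𝒢`, and all schemes for which
the cycle class maps in all dimensions are onto the Frobenius invariants, with semisimple eigenvalue
one, and that is closed under

* open subvarieties (of arbitrary members, with arbitrary complement),
* images under proper morphisms (`IsImage`; by the theory of weights the Frobenius has no eigenvalue
  one on the cokernel of the push-forward in the groups `H_(2 i)(X, ℚ_ℓ(i))`, this is the only property
  that is used),
* disjoint unions of a closed and an open member, and motivic direct summands.

**Theorem.** For all members `X` of `𝒮` - they may be singular and not proper - and all `i` the cycle
class map `CH_i(X) ⊗ Ω → H_(2 i)(X, ℚ_ℓ(i)) ⊗ Ω` is surjective onto the invariants of the Frobenius, and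
the eigenvalue one is semisimple (`IsOnto`).

The proof: the exponents of the relations between the roots of the `P i` form a Galois stable space `N`
of odd functions. Some Galois equivariant map is a multiple of a projection onto `N`; by `Indep` it has
no nonzero component between different blocks. So `N` is the direct sum of its parts in the blocks, and
these vanish by `NoRel`. For the criteria: the relations between the conjugates of one number in an
irreducible field form a stable space; an equivariant map from the odd functions of an irreducible field
is zero or injective, so an automorphism that acts trivially on the target acts trivially on the source.

Properties of the theory of cycles that are used for the abelian varieties (`IsChow`, `IsMotivic`), all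
of them known theorems: Poincaré duality, the formal properties of correspondences, the nilpotence of
homologically trivial correspondences (Kimura), the operation of the Frobenius endomorphism on higher
Chow groups, the vanishing of the higher rational `K`-groups of a finite field (Quillen), and the
algebraicity of the classes in `Alg` (of which only products of classes of divisors matter here, theorem
of Tate).

That the Tate classes are algebraic if the relations between the Frobenius eigenvalues are generated by
elementary ones is a theorem of the starting files (`MP_ee618e_ag.ElementaryRelations`), and so is the
case of one block of fields of two-power degrees (`MP_ee618e_ag.IndependentDiscriminants`, `ℓ`-adic Tate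
classes); the passage from the Tate conjecture to all degrees and to the class `𝒢` is due to Soulé,
Geisser, Kahn and Jannsen. The theorem `SlopeFields` of this folder has conditions on the slopes and on
towers of fields instead. See also Zarhin and Lenstra and Zarhin on products.
-/

set_option autoImplicit false

namespace Pool.Agent.Results.MP_40dc3c_ag.IndependentBlocks

open Pool.Agent.W495.TA Pool.Agent.W495.FM Pool.Agent.K3h20.FB

/-- **Surjectivity of the cycle class maps in étale homology for all varieties dominated by abelian
varieties that belong to independent blocks, and criteria for independent blocks.** -/
theorem result :
    (∀ (p : ℕ) [Fact p.Prime] (ν : PadicAlgCl p ≃+* ℂ) (Ω : Type) [Field Ω] [IsAlgClosed Ω]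
      [CharZero Ω] (V : Type) (T : Homology Ω V), IsHomology T → HasWeights T →
        ∀ X : V, Spread T (fun X => Generated T (IsBlockAbelian p ν T) X ∨ ∀ i, IsOnto T X i) X →
          ∀ i : ℤ, IsOnto T X i) ∧
    BlockCriteria :=
  ⟨fun _ _ _ _ _ _ _ _ _ hT hW _ hX i => onto_blocks hT hW hX i, blockCriteria⟩

end Pool.Agent.Results.MP_40dc3c_ag.IndependentBlocks
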